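import Pool.Agent.X145.WP.Main

/-!
# MP_a04191_co, Q1: the case `r = 2`, and codimension-one faces in every dimension

For `r = 2` the answer is yes: every flag weak 3-pseudomanifold on `n ≥ n₀(β)` vertices has at most `β n³` triangles.
More generally a flag weak `d`-pseudomanifold (`d ≥ 2`) has `o(n^d)` faces of dimension `d` and of dimension `d - 1`.

Proof: in a flag weak 2-pseudomanifold every edge lies in two triangles, so there are `O(n²) = o(n³)` triangles; by the
triangle removal lemma `o(n²)` edges meet all of them, and each edge lies in two triangles, so there are `o(n²)`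
triangles. Passing to vertex links gives every dimension; each ridge lies in a facet.
-/

set_option autoImplicit false

namespace Pool.Agent.Results.MP_a04191_co.ThreeDimensional

open Pool.Agent.X145.WP

theorem result :
    (∀ β : ℝ, 0 < β → ∃ n₀ : ℕ, ∀ (V : Type) (_ : Finite V) (G : SimpleGraph V), n₀ ≤ Nat.card V →
      IsFlagWeakPM G 4 → (fnum G 2 : ℝ) ≤ β * (Nat.card V : ℝ) ^ 3) ∧
    (∀ d : ℕ, 2 ≤ d → ∀ β : ℝ, 0 < β → ∃ n₀ : ℕ, ∀ (V : Type) (_ : Finite V) (G : SimpleGraph V),
      n₀ ≤ Nat.card V → IsFlagWeakPM G (d + 1) →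
      (fnum G d : ℝ) ≤ β * (Nat.card V : ℝ) ^ d ∧
      (fnum G (d - 1) : ℝ) ≤ β * (Nat.card V : ℝ) ^ d) := by
  refine ⟨fun β hβ => ?_, fun d hd β hβ => main d hd β hβ⟩
  obtain ⟨n₀, h⟩ := main 3 (by norm_num) β hβ
  exact ⟨n₀, fun V hV G hn hG => (h V hV G hn hG).2⟩

end Pool.Agent.Results.MP_a04191_co.ThreeDimensional
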